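import Pool.Agent.H89.MC.Targets

/-!
MP_5da387_pr, module AVG: averages over large cubes are almost invariant.
-/

namespace Pool.Agent.H14.MC.Avg

open Classical MeasureTheory ProbabilityTheory
open Pool.Agent.H96.MC

variable {d q : ℕ}

theorem mem_cube (c : Cell d) (m : ℕ) : c ∈ cube 0 m ↔ ∀ i, -(m : ℤ) ≤ c i ∧ c i ≤ m := by
  simp [cube, Fintype.mem_piFinset, Finset.mem_Icc]

theorem sn_le (c : Cell d) (m : ℕ) : sn c ≤ m ↔ c ∈ cube 0 m := by
  rw [mem_cube]
  unfold sn
  rw [Finset.sup_le_iff]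
  constructor
  · intro h i
    have := h i (Finset.mem_univ _)
    omega
  · intro h i _
    have := h i
    omega

theorem card_cube (m : ℕ) : (cube (0 : Cell d) m).card = (2 * m + 1) ^ d := by
  unfold cube
  rw [Fintype.card_piFinset]
  have : ∀ i : Fin d, (Finset.Icc ((0 : Cell d) i - (m : ℤ)) ((0 : Cell d) i + m)).card = 2 * m + 1 := by
    intro i
    rw [Int.card_Icc]
    simp only [Pi.zero_apply]
    omega
  rw [Finset.prod_congr rfl (fun i _ => this i)]
  simp

theorem card_ne_zero (m : ℕ) : ((cube (0 : Cell d) m).card : ENNReal) ≠ 0 := by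
  rw [card_cube]
  positivity

theorem inv_mul_self (m : ℕ) :
    ((cube (0 : Cell d) m).card : ENNReal)⁻¹ * ((cube (0 : Cell d) m).card : ENNReal) = 1 :=
  ENNReal.inv_mul_cancel (card_ne_zero m) (ENNReal.natCast_ne_top _)

theorem avg_apply (hc : ∀ c : Cell d, Measurable (shX (q := q) c)) (m : ℕ) (ν : Measure (XX d q))
    (A : Set (XX d q)) (hA : MeasurableSet A) :
    avg m ν A = ((cube (0 : Cell d) m).card : ENNReal)⁻¹ *
      ∑ c ∈ cube (0 : Cell d) m, ν (shX c ⁻¹' A) := by
  unfold avg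
  rw [Measure.smul_apply, Measure.finsetSum_apply, smul_eq_mul]
  congr 1
  refine Finset.sum_congr rfl fun c _ => ?_
  rw [Measure.map_apply (hc c) hA]

theorem avg_lintegral (hc : ∀ c : Cell d, Measurable (shX (q := q) c)) (m : ℕ)
    (ν : Measure (XX d q)) (f : XX d q → ENNReal) (hf : Measurable f) :
    ∫⁻ ω, f ω ∂(avg m ν) = ((cube (0 : Cell d) m).card : ENNReal)⁻¹ *
      ∑ c ∈ cube (0 : Cell d) m, ∫⁻ ω, f (shX c ω) ∂ν := by
  unfold avg
  rw [lintegral_smul_measure, lintegral_finsetSum_measure, smul_eq_mul]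
  congr 1
  refine Finset.sum_congr rfl fun c _ => ?_
  rw [lintegral_map hf (hc c)]

theorem count_bound (a : Cell d) (m : ℕ) (hm : sn a ≤ m) :
    (((cube (0 : Cell d) m).image (fun c => a + c)) \ cube 0 m).card + (2 * (m - sn a) + 1) ^ d
      ≤ (cube (0 : Cell d) m).card := by
  have hinj : Function.Injective (fun c : Cell d => a + c) := add_right_injective a
  have h1 : ((cube (0 : Cell d) m).image (fun c => a + c)).card = (cube (0 : Cell d) m).card :=
    Finset.card_image_of_injective _ hinj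
  have h2 := Finset.card_sdiff_add_card_inter ((cube (0 : Cell d) m).image (fun c => a + c))
    (cube (0 : Cell d) m)
  have h3 : (cube (0 : Cell d) (m - sn a)) ⊆
      ((cube (0 : Cell d) m).image (fun c => a + c)) ∩ cube (0 : Cell d) m := by
    intro z hz
    rw [mem_cube] at hz
    have ha : ∀ i, (a i).natAbs ≤ sn a := by
      intro i
      exact Finset.le_sup (f := fun i => (a i).natAbs) (Finset.mem_univ i)
    rw [Finset.mem_inter, Finset.mem_image]
    refine ⟨⟨z - a, ?_, by simp⟩, ?_⟩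
    · rw [mem_cube]
      intro i
      have := hz i
      have := ha i
      simp only [Pi.sub_apply]
      omega
    · rw [mem_cube]
      intro i
      have := hz i
      omega
  have h4 := Finset.card_le_card h3
  rw [card_cube] at h4
  omega

theorem ratio_bound (a : Cell d) (ε : ℝ) (hε : 0 < ε) : ∃ m₀ : ℕ, ∀ m ≥ m₀,
    ((((cube (0 : Cell d) m).image (fun c => a + c)) \ cube 0 m).card : ℝ) ≤
      ((cube (0 : Cell d) m).card : ℝ) * ε := by
  obtain ⟨k, hk⟩ := exists_nat_gt ((d : ℝ) * (sn a : ℝ) / ε)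
  refine ⟨max (sn a) k, fun m hm => ?_⟩
  have hm1 : sn a ≤ m := le_trans (le_max_left _ _) hm
  have hm2 : k ≤ m := le_trans (le_max_right _ _) hm
  have h1 := count_bound a m hm1
  have h2 : ((((cube (0 : Cell d) m).image (fun c => a + c)) \ cube 0 m).card : ℝ) +
      (2 * ((m : ℝ) - sn a) + 1) ^ d ≤ ((cube (0 : Cell d) m).card : ℝ) := by
    have := (Nat.cast_le (α := ℝ)).2 h1
    push_cast [Nat.cast_sub hm1] at this
    linarith
  have h3 : ((cube (0 : Cell d) m).card : ℝ) = (2 * (m : ℝ) + 1) ^ d := by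
    rw [card_cube]
    push_cast
    ring
  set x : ℝ := 2 * (sn a : ℝ) / (2 * (m : ℝ) + 1) with hx
  have hpos : (0 : ℝ) < 2 * (m : ℝ) + 1 := by positivity
  have hsm : (sn a : ℝ) ≤ m := by exact_mod_cast hm1
  have hx1 : x ≤ 1 := by
    rw [hx, div_le_one hpos]
    linarith
  have h4 : (2 * ((m : ℝ) - sn a) + 1) ^ d = (2 * (m : ℝ) + 1) ^ d * (1 - x) ^ d := by
    rw [← mul_pow]
    congr 1
    rw [hx]
    field_simp
    ring
  have h5 : 1 - (d : ℝ) * x ≤ (1 - x) ^ d := by
    have := one_add_mul_le_pow (a := -x) (by linarith) d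
    have e1 : (1 : ℝ) + -x = 1 - x := by ring
    rw [e1] at this
    linarith
  have h6 : (d : ℝ) * x ≤ ε := by
    have hk2 : (d : ℝ) * (sn a : ℝ) / ε < m := lt_of_lt_of_le hk (by exact_mod_cast hm2)
    rw [div_lt_iff₀ hε] at hk2
    rw [hx, mul_div_assoc', div_le_iff₀ hpos]
    nlinarith
  have hp : (0 : ℝ) < (2 * (m : ℝ) + 1) ^ d := by positivity
  rw [h4, h3] at h2
  rw [h3]
  nlinarith [mul_le_mul_of_nonneg_left h5 hp.le, mul_le_mul_of_nonneg_left h6 hp.le]

theorem avg (hx : T_SHX) (hs : T_SHI) : T_AVG := by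
  intro d q
  obtain ⟨hcont, -, hadd, -, -, -⟩ := hx d q
  have hc : ∀ c : Cell d, Measurable (shX (q := q) c) := fun c => (hcont c).measurable
  refine ⟨?_, ?_, ?_, ?_⟩
  · intro m ν hν
    refine ⟨?_⟩
    rw [avg_apply hc m ν _ MeasurableSet.univ]
    simp only [Set.preimage_univ, measure_univ, Finset.sum_const, nsmul_eq_mul, mul_one]
    exact inv_mul_self m
  · intro m ν f C hf h
    rw [avg_lintegral hc m ν f hf]
    have h1 : ∑ c ∈ cube (0 : Cell d) m, ∫⁻ ω, f (shX c ω) ∂ν ≤
        ((cube (0 : Cell d) m).card : ENNReal) * C := by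
      rw [← nsmul_eq_mul]
      refine Finset.sum_le_card_nsmul _ _ _ fun c hcm => ?_
      exact h c ((sn_le c m).2 hcm)
    refine (mul_le_mul_right h1 _).trans ?_
    rw [← mul_assoc, inv_mul_self, one_mul]
  · intro D m ν hν
    have hsm : ∀ c : Cell d, Measurable (shift (q := q) c) := by
      intro c
      refine measurable_pi_lambda _ fun x => ?_
      exact measurable_pi_apply _
    ext A hA
    rw [Measure.map_apply measurable_fst hA,
      avg_apply hc m ν _ (measurable_fst hA)]
    have h1 : ∀ c ∈ cube (0 : Cell d) m, ν (shX c ⁻¹' (Prod.fst ⁻¹' A)) = pois D d A := by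
      intro c _
      have e1 : (shX c ⁻¹' (Prod.fst ⁻¹' A) : Set (XX d q)) = Prod.fst ⁻¹' (shift c ⁻¹' A) := rfl
      rw [e1, ← Measure.map_apply measurable_fst (hsm c hA), hν,
        ← Measure.map_apply (hsm c) hA, (hs d q D c).1]
    rw [Finset.sum_congr rfl h1, Finset.sum_const, nsmul_eq_mul, ← mul_assoc, inv_mul_self, one_mul]
  · intro a ε hε
    obtain ⟨m₀, hm₀⟩ := ratio_bound a ε hε
    refine ⟨m₀, fun m hm ν A hν hA => ?_⟩
    rw [avg_apply hc m ν _ (hc a hA), avg_apply hc m ν _ hA]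
    have e1 : ∀ c : Cell d, (shX c ⁻¹' (shX a ⁻¹' A) : Set (XX d q)) = shX (a + c) ⁻¹' A := by
      intro c
      ext ω
      simp only [Set.mem_preimage]
      rw [hadd]
    have e2 : ∑ c ∈ cube (0 : Cell d) m, ν (shX c ⁻¹' (shX a ⁻¹' A)) =
        ∑ z ∈ (cube (0 : Cell d) m).image (fun c => a + c), ν (shX z ⁻¹' A) := by
      rw [Finset.sum_image (fun x _ y _ h => add_right_injective a h)]
      exact Finset.sum_congr rfl fun c _ => by rw [e1]
    have e3 : ∑ z ∈ (cube (0 : Cell d) m).image (fun c => a + c), ν (shX z ⁻¹' A) ≤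
        ∑ z ∈ cube (0 : Cell d) m, ν (shX z ⁻¹' A) +
          ((((cube (0 : Cell d) m).image (fun c => a + c)) \ cube 0 m).card : ENNReal) := by
      rw [← Finset.sum_inter_add_sum_sdiff ((cube (0 : Cell d) m).image (fun c => a + c))
        (cube 0 m)]
      refine add_le_add ?_ ?_
      · exact Finset.sum_le_sum_of_subset Finset.inter_subset_right
      · have : ∀ z ∈ ((cube (0 : Cell d) m).image (fun c => a + c)) \ cube 0 m,
            ν (shX z ⁻¹' A) ≤ 1 := fun z _ => prob_le_one
        refine (Finset.sum_le_card_nsmul _ _ _ this).trans ?_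
        simp
    rw [e2]
    refine (mul_le_mul_right e3 _).trans ?_
    rw [mul_add]
    refine add_le_add le_rfl ?_
    have h7 : ((((cube (0 : Cell d) m).image (fun c => a + c)) \ cube 0 m).card : ENNReal) ≤
        ((cube (0 : Cell d) m).card : ENNReal) * ENNReal.ofReal ε := by
      have h8 := hm₀ m hm
      have h9 := ENNReal.ofReal_le_ofReal h8
      rw [ENNReal.ofReal_natCast, ENNReal.ofReal_mul (Nat.cast_nonneg _),
        ENNReal.ofReal_natCast] at h9
      exact h9
    refine (mul_le_mul_right h7 _).trans ?_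
    rw [← mul_assoc, inv_mul_self, one_mul]

end Pool.Agent.H14.MC.Avg
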