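import Pool.Agent.H79.MC.Targets

/-! Module FR of mxc_modules: for loops. -/

set_option autoImplicit false

namespace Pool.Agent.H14.MC

open Pool.Agent.H79.MC

theorem pf_fr (_hWR : T_WR) (hMXW : T_MXW) : T_FR := by
  intro W i N p s T m I h0 h1 h2
  have hset : Run W (.set i (.lit 0)) s 1 (s.setr i 0) :=
    Run.set i (.lit 0) s (Nat.zero_le _)
  have key : ∀ d k s', k ≤ m → m - k = d → I k s' →
      Ex W (.wh (.sub N (.reg i)) (.seq p (.set i (.add (.reg i) (.lit 1))))) s'
        (d * (T + 2) + 1) (I m) := by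
    intro d
    induction d with
    | zero =>
      intro k s' hk hd hI
      obtain ⟨g1, g2, g3⟩ := h1 k s' hk hI
      have hkm : k = m := by omega
      subst hkm
      have he : ev s' (.sub N (.reg i)) = 0 := by
        simp only [ev, g1, g2]
        omega
      have hm : mx s' (.sub N (.reg i)) ≤ W := by
        have h3 := hMXW.1 s' N
        simp only [mx, g1]
        rw [g2] at h3
        exact max_le g3 (h3.trans g3)
      exact ⟨1, s', Run.wh_false hm he, by omega, hI⟩
    | succ d ih =>
      intro k s' hk hd hI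
      obtain ⟨g1, g2, g3⟩ := h1 k s' hk hI
      have h3 := hMXW.1 s' N
      rw [g2] at h3
      have hmW : m ≤ W := h3.trans g3
      have he : ev s' (.sub N (.reg i)) ≠ 0 := by
        simp only [ev, g1, g2]
        omega
      have hm : mx s' (.sub N (.reg i)) ≤ W := by
        simp only [mx, g1]
        exact max_le g3 (hk.trans hmW)
      obtain ⟨t1, s1, r1, ht1, hr, hI1⟩ := h2 k s' (by omega) hI
      have hset2 : Run W (.set i (.add (.reg i) (.lit 1))) s1 1 (s1.setr i (k + 1)) := by
        have := Run.set (W := W) i (.add (.reg i) (.lit 1)) s1 (by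
          simp only [mx, ev, hr]
          refine max_le (max_le ?_ ?_) ?_ <;> omega)
        simp only [ev, hr] at this
        exact this
      obtain ⟨t2, s2, r2, ht2, hQ⟩ := ih (k + 1) (s1.setr i (k + 1)) (by omega) (by omega) hI1
      refine ⟨t1 + 1 + t2 + 1, s2, Run.wh_true hm he (Run.seq r1 hset2) r2, ?_, hQ⟩
      have : (d + 1) * (T + 2) = d * (T + 2) + (T + 2) := by ring
      omega
  obtain ⟨t2, s2, r2, ht2, hQ⟩ := key (m - 0) 0 (s.setr i 0) (Nat.zero_le _) rfl h0
  refine ⟨1 + t2, s2, Run.seq hset r2, ?_, hQ⟩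
  simp only [Nat.sub_zero] at ht2
  omega

end Pool.Agent.H14.MC
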