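import Pool.Agent.H89.MC.Targets

/-!
MP_5da387_pr, module SHX: basic properties of translations of labelled matchings.
-/

namespace Pool.Agent.H14.MC

open Classical MeasureTheory ProbabilityTheory
open Pool.Agent.H96.MC

variable {d q : ℕ}

theorem trP_zero (x : Pt d q) : trP 0 x = x := by
  simp [trP]

theorem trP_add (a b : Cell d) (x : Pt d q) : trP b (trP a x) = trP (a + b) x := by
  simp [trP, add_assoc]

theorem trP_inj (c : Cell d) : Function.Injective (trP (q := q) c) := by
  rintro ⟨⟨a, i⟩, k⟩ ⟨⟨b, j⟩, l⟩ h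
  simp only [trP, Prod.mk.injEq, add_left_inj] at h
  obtain ⟨⟨h1, h2⟩, h3⟩ := h
  subst h1 h2 h3
  rfl

theorem mem_shX (c : Cell d) (ω : XX d q) (x y : Pt d q) :
    y ∈ (shX c ω).2 x ↔ trP c y ∈ ω.2 (trP c x) := by
  simp only [shX, Finset.mem_image]
  constructor
  · rintro ⟨z, hz, rfl⟩
    rw [trP_add]
    simpa [trP_zero] using hz
  · intro h
    refine ⟨_, h, ?_⟩
    rw [trP_add]
    simp [trP_zero]

theorem cont_shX (c : Cell d) : Continuous (shX (q := q) c) := by
  refine Continuous.prodMk ?_ ?_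
  · refine continuous_pi fun x => ?_
    exact (continuous_apply _).comp continuous_fst
  · refine continuous_pi fun x => ?_
    have h1 : Continuous (fun ω : XX d q => ω.2 (trP c x)) :=
      (continuous_apply (trP c x)).comp continuous_snd
    have h2 : Continuous (fun F : Finset (Pt d q) => F.image (trP (-c))) :=
      continuous_of_discreteTopology
    exact h2.comp h1

theorem shX_zero (ω : XX d q) : shX 0 ω = ω := by
  refine Prod.ext ?_ ?_
  · funext x
    simp [shX, shift]
  · funext x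
    ext y
    rw [mem_shX, trP_zero, trP_zero]

theorem shX_add (a b : Cell d) (ω : XX d q) : shX a (shX b ω) = shX (a + b) ω := by
  refine Prod.ext ?_ ?_
  · funext x
    simp [shX, shift, add_assoc]
  · funext x
    ext y
    rw [mem_shX, mem_shX, mem_shX, trP_add, trP_add]

theorem far_shX (c : Cell d) (ω : XX d q) (x : Pt d q) (r : ℝ) :
    Far r (shX c ω) x ↔ Far r ω (trP c x) := by
  constructor
  · rintro ⟨y, hy, y', hy', h⟩
    refine ⟨trP c y, (mem_shX c ω x y).1 hy, trP c y', (mem_shX c ω x y').1 hy', ?_⟩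
    simpa [trP] using h
  · rintro ⟨y, hy, y', hy', h⟩
    refine ⟨trP (-c) y, ?_, trP (-c) y', ?_, ?_⟩
    · rw [mem_shX, trP_add]
      simpa [trP_zero] using hy
    · rw [mem_shX, trP_add]
      simpa [trP_zero] using hy'
    · simpa [trP] using h

theorem numFar_shX (a c : Cell d) (ω : XX d q) (r : ℝ) :
    numFarAt c r (shX a ω) = numFarAt (c + a) r ω := by
  unfold numFarAt
  refine Finset.sum_congr rfl fun i _ => ?_
  congr 1
  have h1 : (shX a ω).1 (c, i) = ω.1 (c + a, i) := rfl
  rw [h1]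
  refine Finset.filter_congr fun k _ => ?_
  rw [far_shX]
  rfl

theorem ltype_shX (c : Cell d) (ω : XX d q) (x : Pt d q) :
    ltype ((shX c ω).2 x) = ltype (ω.2 (trP c x)) := by
  funext i
  unfold ltype
  simp only [shX]
  rw [Finset.filter_image, Finset.card_image_of_injective _ (trP_inj _)]
  rfl

theorem isMat_shX (V : Finset (Fin q → ℕ)) (c : Cell d) (ω : XX d q) (h : IsMat V ω) :
    IsMat V (shX c ω) := by
  intro x hx
  obtain ⟨z, hz⟩ := hx
  have hz' := (mem_shX c ω x z).1 hz
  obtain ⟨h1, h2, h3⟩ := h (trP c x) ⟨_, hz'⟩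
  refine ⟨(mem_shX c ω x x).2 h1, ?_, ?_⟩
  · rw [ltype_shX]
    exact h2
  · intro y hy
    have hy' := (mem_shX c ω x y).1 hy
    obtain ⟨h4, h5⟩ := h3 _ hy'
    refine ⟨?_, ?_⟩
    · simp only [shX]
      rw [h4]
    · exact h5

theorem isPerf_shX (V : Finset (Fin q → ℕ)) (c : Cell d) (ω : XX d q) (h : IsPerf V ω) :
    IsPerf V (shX c ω) := by
  refine ⟨isMat_shX V c ω h.1, ?_⟩
  intro x hx
  obtain ⟨z, hz⟩ := h.2 (trP c x) hx
  refine ⟨trP (-c) z, ?_⟩
  rw [mem_shX, trP_add]
  simpa [trP_zero] using hz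

theorem shx : T_SHX := by
  intro d q
  exact ⟨cont_shX, shX_zero, shX_add, far_shX, numFar_shX,
    fun V c ω => ⟨isMat_shX V c ω, isPerf_shX V c ω⟩⟩

end Pool.Agent.H14.MC
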