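import Pool.Agent.H79.MC.Targets

/-! Module WR of mxc_modules: while loops. -/

set_option autoImplicit false

namespace Pool.Agent.H14.MC

open Pool.Agent.H79.MC

theorem pf_wr : T_WR := by
  intro W e p s T m I h0 h1 h2
  have key : ∀ d k s', k ≤ m → m - k = d → I k s' →
      Ex W (.wh e p) s' (d * (T + 1) + 1) fun s'' => (∃ k ≤ m, I k s'') ∧ ev s'' e = 0 := by
    intro d
    induction d with
    | zero =>
      intro k s' hk hd hI
      obtain ⟨g1, g2⟩ := h1 k s' hI
      have he : ev s' e = 0 := by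
        by_contra hne
        have := g2 hne
        omega
      exact ⟨1, s', Run.wh_false g1 he, by omega, ⟨k, hk, hI⟩, he⟩
    | succ d ih =>
      intro k s' hk hd hI
      obtain ⟨g1, g2⟩ := h1 k s' hI
      by_cases he : ev s' e = 0
      · exact ⟨1, s', Run.wh_false g1 he, by omega, ⟨k, hk, hI⟩, he⟩
      · obtain ⟨t1, s1, r1, ht1, hI1⟩ := h2 k s' hI he
        have hkm := g2 he
        obtain ⟨t2, s2, r2, ht2, hQ⟩ := ih (k + 1) s1 (by omega) (by omega) hI1
        refine ⟨t1 + t2 + 1, s2, Run.wh_true g1 he r1 r2, ?_, hQ⟩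
        have : (d + 1) * (T + 1) = d * (T + 1) + (T + 1) := by ring
        omega
  exact key (m - 0) 0 s (Nat.zero_le _) rfl h0

end Pool.Agent.H14.MC
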